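import Mathlib

set_option autoImplicit false

namespace Pool.Agent.H30.PT

variable {F : Type} [Field F]

open Classical in
/-- add `c` on `V` -/
noncomputable def th (V : AddSubgroup F) (c : F) (x : F) : F := x + if x ∈ V then c else 0

variable {V : AddSubgroup F} {c : F}

theorem add_self_zero (h2 : (2 : F) = 0) (x : F) : x + x = 0 := by linear_combination x * h2

theorem th_th (h2 : (2 : F) = 0) (hc : c ∈ V) (x : F) : th V c (th V c x) = x := by
  unfold th
  by_cases hx : x ∈ V
  · have h1 : x + c ∈ V := V.add_mem hx hc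
    simp only [hx, h1, if_true]
    linear_combination c * h2
  · simp [hx]

theorem th_inj (h2 : (2 : F) = 0) (hc : c ∈ V) {x y : F} (h : th V c x = th V c y) : x = y := by
  have h1 := congrArg (th V c) h
  rwa [th_th h2 hc, th_th h2 hc] at h1

theorem th_zero : th V c 0 = c := by
  unfold th
  simp [V.zero_mem]

theorem eq_of_add {h2 : (2 : F) = 0} {x y : F} (h : x + y = 0) : x = y := by
  linear_combination h - y * h2

/-- the sum of `th` at `b z` and `z` is injective -/
theorem sum_inj (h2 : (2 : F) = 0) {b v : F} (hb : b + 1 ≠ 0) (hv : (b + 1) * v = c) (hvV : v ∈ V)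
    (hbv : b * v ∈ V) {z w : F} (h : th V c (b * z) + th V c z = th V c (b * w) + th V c w) : z = w := by
  classical
  have key : (b + 1) * (z + w) = 0 ∨ (b + 1) * (z + w) = c := by
    unfold th at h
    split_ifs at h
    all_goals first
      | (left; linear_combination h + ((b + 1) * w) * h2)
      | (left; linear_combination h + ((b + 1) * w + c) * h2)
      | (left; linear_combination h + ((b + 1) * w - c) * h2)
      | (right; linear_combination h + ((b + 1) * w) * h2)
      | (right; linear_combination h + ((b + 1) * w + c) * h2)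
      | (right; linear_combination h + ((b + 1) * w - c) * h2)
      | (right; linear_combination h + ((b + 1) * w + 2 * c) * h2)
      | (right; linear_combination h + ((b + 1) * w - 2 * c) * h2)
  rcases key with h0 | h1
  · exact eq_of_add (h2 := h2) ((mul_eq_zero.1 h0).resolve_left hb)
  · have hzw : z + w = v := mul_left_cancel₀ hb (by rw [h1, hv])
    have e1 : z = w + v := by linear_combination hzw - w * h2
    have i1 : z ∈ V ↔ w ∈ V := by
      rw [e1]
      exact V.add_mem_cancel_right hvV
    have i2 : b * z ∈ V ↔ b * w ∈ V := by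
      rw [e1, mul_add]
      exact V.add_mem_cancel_right hbv
    have h3 : (b + 1) * (z + w) = 0 := by
      unfold th at h
      simp only [i1, i2] at h
      linear_combination h + ((b + 1) * w) * h2
    exact eq_of_add (h2 := h2) ((mul_eq_zero.1 h3).resolve_left hb)

/-- the map -/
noncomputable def f (V : AddSubgroup F) (c a : F) (x : F) : F := th V c (a * th V c x)

variable {a : F}

theorem f_f (h2 : (2 : F) = 0) (hc : c ∈ V) (x : F) :
    f V c a (f V c a x) = th V c (a * (a * th V c x)) := by
  unfold f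
  rw [th_th h2 hc]

theorem f_inj (h2 : (2 : F) = 0) (hc : c ∈ V) (ha : a ≠ 0) : Function.Injective (f V c a) := by
  intro x y h
  exact th_inj h2 hc (mul_left_cancel₀ ha (th_inj h2 hc h))

theorem d1 (h2 : (2 : F) = 0) (hc : c ∈ V) {v : F} (ha : a + 1 ≠ 0) (hv : (a + 1) * v = c) (hvV : v ∈ V)
    (hav : a * v ∈ V) : Function.Injective (fun x => f V c a x + x) := by
  intro x y h
  have h1 : th V c (a * th V c x) + th V c (th V c x) = th V c (a * th V c y) + th V c (th V c y) := by
    rw [th_th h2 hc, th_th h2 hc]; exact h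
  exact th_inj h2 hc (sum_inj h2 ha hv hvV hav h1)

theorem d2 (h2 : (2 : F) = 0) (hc : c ∈ V) {v : F} (ha : a * a + 1 ≠ 0) (hv : (a * a + 1) * v = c) (hvV : v ∈ V)
    (hav : a * a * v ∈ V) : Function.Injective (fun x => f V c a (f V c a x) + x) := by
  intro x y h
  have h0 : f V c a (f V c a x) + x = f V c a (f V c a y) + y := h
  rw [f_f h2 hc, f_f h2 hc] at h0
  have h1 : th V c (a * a * th V c x) + th V c (th V c x) = th V c (a * a * th V c y) + th V c (th V c y) := by
    rw [th_th h2 hc, th_th h2 hc, mul_assoc, mul_assoc]; exact h0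
  exact th_inj h2 hc (sum_inj h2 ha hv hvV hav h1)

theorem iter (h2 : (2 : F) = 0) (hc : c ∈ V) (n : ℕ) (x : F) :
    (f V c a)^[n] x = th V c (a ^ n * th V c x) := by
  induction n with
  | zero => simp [th_th h2 hc]
  | succ n ih =>
    rw [Function.iterate_succ_apply', ih]
    unfold f
    rw [th_th h2 hc, pow_succ']
    congr 1
    ring

theorem f_fix (h2 : (2 : F) = 0) (hc : c ∈ V) : f V c a c = c := by
  have h1 : th V c c = 0 := by
    have := th_th (V := V) (c := c) h2 hc 0
    rwa [th_zero] at this
  unfold f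
  rw [h1, mul_zero, th_zero]

theorem orbit (h2 : (2 : F) = 0) (hc : c ∈ V) (hgen : ∀ x : F, x ≠ 0 → ∃ n : ℕ, a ^ n = x) {x y : F}
    (hx : x ≠ c) (hy : y ≠ c) : ∃ n : ℕ, (f V c a)^[n] x = y := by
  have h1 : th V c x ≠ 0 := by
    intro h
    apply hx
    rw [← th_th (V := V) (c := c) h2 hc x, h, th_zero]
  have h3 : th V c y ≠ 0 := by
    intro h
    apply hy
    rw [← th_th (V := V) (c := c) h2 hc y, h, th_zero]
  obtain ⟨n, hn⟩ := hgen (th V c y * (th V c x)⁻¹) (mul_ne_zero h3 (inv_ne_zero h1))
  refine ⟨n, ?_⟩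
  rw [iter h2 hc, hn, mul_assoc, inv_mul_cancel₀ h1, mul_one, th_th h2 hc]

theorem f_out {x : F} (h1 : x ∉ V) (h3 : a * x ∉ V) : f V c a x = a * x := by
  unfold f th
  simp [h1, h3]

theorem f_zero_ne (hc0 : c ≠ 0) (ha : a ≠ 0) (h1 : a + 1 ≠ 0) : f V c a 0 ≠ 0 := by
  unfold f
  rw [th_zero]
  unfold th
  split_ifs
  · intro h
    have : (a + 1) * c = 0 := by linear_combination h
    exact (mul_ne_zero h1 hc0) this
  · rw [add_zero]
    exact mul_ne_zero ha hc0

/-- the quadrangle criterion -/
theorem not_group (h2 : (2 : F) = 0) {g : F → F} (h0 : g 0 ≠ 0) {r s t : F}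
    (h1 : ∀ x ∈ ({r, s, r + s, t, t + r, t + s, t + r + s} : Set F), g x = a * x) :
    ¬ ∃ (G : Type) (_ : Group G) (R C S : F ≃ G), ∀ i j : F, S (i + g (j - i)) = R i * C j := by
  rintro ⟨G, hG, R, C, S, H⟩
  -- rows `0`, `r`; columns `0`, `s`; second: rows `a t`, `a t + r`; columns `(1 + a) t`, `(1 + a) t + s`
  have quad : ∀ i1 i2 j1 j2 : F, S (i2 + g (j2 - i2)) =
      S (i2 + g (j1 - i2)) * (S (i1 + g (j1 - i1)))⁻¹ * S (i1 + g (j2 - i1)) := by
    intro i1 i2 j1 j2
    rw [H, H, H, H]
    group
  have e1 := quad r 0 s 0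
  have e2 := quad (a * t + r) (a * t) ((1 + a) * t + s) ((1 + a) * t)
  have gr := h1 r (by simp)
  have gs := h1 s (by simp)
  have grs := h1 (r + s) (by simp)
  have gt := h1 t (by simp)
  have gtr := h1 (t + r) (by simp)
  have gts := h1 (t + s) (by simp)
  have gtrs := h1 (t + r + s) (by simp)
  have a1 : (0 : F) - 0 = 0 := by ring
  have a2 : s - 0 = s := by ring
  have a3 : s - r = r + s := by linear_combination (-r) * h2
  have a4 : (0 : F) - r = r := by linear_combination (-r) * h2
  have b1 : (1 + a) * t - a * t = t := by ring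
  have b2 : (1 + a) * t + s - a * t = t + s := by ring
  have b3 : (1 + a) * t + s - (a * t + r) = t + r + s := by linear_combination (-r) * h2
  have b4 : (1 + a) * t - (a * t + r) = t + r := by linear_combination (-r) * h2
  rw [a1, a2, a3, a4, gs, grs, gr] at e1
  rw [b1, b2, b3, b4, gt, gts, gtrs, gtr] at e2
  have c2 : a * t + a * (t + s) = 0 + a * s := by linear_combination (a * t) * h2
  have c3 : a * t + r + a * (t + r + s) = r + a * (r + s) := by linear_combination (a * t) * h2
  have c4 : a * t + r + a * (t + r) = r + a * r := by linear_combination (a * t) * h2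
  have c1 : a * t + a * t = 0 := by linear_combination (a * t) * h2
  rw [c1, c2, c3, c4] at e2
  rw [← e2] at e1
  have h3 := S.injective e1
  apply h0
  linear_combination h3

end Pool.Agent.H30.PT
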