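import Pool.Agent.H30.PT.Alg

set_option autoImplicit false

namespace Pool.Agent.H30.PT

theorem exists_out {F : Type} [Fintype F] (T : Finset F) (h : T.card < Fintype.card F) : ∃ x, x ∉ T := by
  classical
  by_contra hcon
  push Not at hcon
  have h1 : T = Finset.univ := Finset.eq_univ_of_forall hcon
  rw [h1, Finset.card_univ] at h
  exact lt_irrefl _ h

theorem exists_rst {F : Type} [Field F] [Fintype F] (h2 : (2 : F) = 0) (S : Finset F)
    (hS : 4 * S.card < Fintype.card F) : ∃ r s t : F,
      ∀ x ∈ ({r, s, r + s, t, t + r, t + s, t + r + s} : Set F), x ∉ S := by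
  classical
  obtain ⟨r, hr⟩ := exists_out S (by omega)
  have c1 : ∀ u : F, (S.image (· + u)).card ≤ S.card := fun u => Finset.card_image_le
  have m1 : ∀ u x : F, x ∉ S.image (· + u) → x + u ∉ S := by
    intro u x hx h
    apply hx
    rw [Finset.mem_image]
    exact ⟨x + u, h, by linear_combination u * h2⟩
  obtain ⟨s, hs⟩ := exists_out (S ∪ S.image (· + r)) (by
    have := Finset.card_union_le S (S.image (· + r))
    have := c1 r
    omega)
  obtain ⟨t, ht⟩ := exists_out (((S ∪ S.image (· + r)) ∪ S.image (· + s)) ∪ S.image (· + (r + s))) (by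
    have h1 := Finset.card_union_le S (S.image (· + r))
    have h3 := Finset.card_union_le (S ∪ S.image (· + r)) (S.image (· + s))
    have h4 := Finset.card_union_le ((S ∪ S.image (· + r)) ∪ S.image (· + s)) (S.image (· + (r + s)))
    have := c1 r
    have := c1 s
    have := c1 (r + s)
    omega)
  simp only [Finset.mem_union, not_or] at hs ht
  refine ⟨r, s, t, ?_⟩
  intro x hx
  simp only [Set.mem_insert_iff, Set.mem_singleton_iff] at hx
  rcases hx with rfl | rfl | rfl | rfl | rfl | rfl | rfl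
  · exact hr
  · exact hs.1
  · rw [add_comm]; exact m1 _ _ hs.2
  · exact ht.1.1.1
  · exact m1 _ _ ht.1.1.2
  · exact m1 _ _ ht.1.2
  · rw [add_assoc]; exact m1 _ _ ht.2

/-- the exceptional set has at most 15 elements -/
theorem card_exc {F : Type} [Field F] [Fintype F] [Algebra (ZMod 2) F] {a : F} (ha : a ≠ 0)
    (V : AddSubgroup F) (hV : ∀ x, x ∈ V ↔ x ∈ Submodule.span (ZMod 2) ({a, a ^ 2, a ^ 3} : Set F)) :
    ∃ S : Finset F, S.card ≤ 15 ∧ ∀ x, x ∉ S → x ∉ V ∧ a * x ∉ V := by
  classical
  let A : Finset F := Finset.univ.filter (fun x => x ∈ V)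
  let B : Finset F := Finset.univ.filter (fun x => a * x ∈ V)
  have hA : A.card ≤ 8 := by
    have h1 : A ⊆ (Finset.univ : Finset (ZMod 2 × ZMod 2 × ZMod 2)).image
        (fun p => p.1 • a + p.2.1 • a ^ 2 + p.2.2 • a ^ 3) := by
      intro x hx
      have hx1 : x ∈ V := (Finset.mem_filter.1 hx).2
      rw [hV, Submodule.mem_span_triple] at hx1
      obtain ⟨α, β, γ, h⟩ := hx1
      rw [Finset.mem_image]
      exact ⟨(α, β, γ), Finset.mem_univ _, h⟩
    have h3 := (Finset.card_le_card h1).trans Finset.card_image_le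
    have h4 : (Finset.univ : Finset (ZMod 2 × ZMod 2 × ZMod 2)).card = 8 := by decide
    omega
  have hB : B.card ≤ A.card := by
    refine Finset.card_le_card_of_injOn (fun x => a * x) ?_ ?_
    · intro x hx
      have hx1 : a * x ∈ V := (Finset.mem_filter.1 hx).2
      exact Finset.mem_coe.2 (Finset.mem_filter.2 ⟨Finset.mem_univ _, hx1⟩)
    · intro x _ y _ h
      exact mul_left_cancel₀ ha h
  have h0 : (0 : F) ∈ A ∩ B := by
    simp [A, B, V.zero_mem]
  have h1 : 0 < (A ∩ B).card := Finset.card_pos.2 ⟨0, h0⟩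
  have h3 := Finset.card_union_add_card_inter A B
  refine ⟨A ∪ B, by omega, fun x hx => ?_⟩
  rw [Finset.mem_union, not_or] at hx
  constructor
  · intro h; exact hx.1 (Finset.mem_filter.2 ⟨Finset.mem_univ _, h⟩)
  · intro h; exact hx.2 (Finset.mem_filter.2 ⟨Finset.mem_univ _, h⟩)

end Pool.Agent.H30.PT
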