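import Mathlib

set_option autoImplicit false

namespace Pool.Agent.H30.PT

/-- transport to `Fin n` -/
theorem transport {n : ℕ} {F : Type} [Field F] [Fintype F] (h2 : (2 : F) = 0) (hcard : Fintype.card F = n)
    (g : F → F) (hg : Function.Injective g) (hd : Function.Injective (fun x => g x + x))
    (hd2 : Function.Injective (fun x => g (g x) + x)) (o : F) (ho : g o = o)
    (horb : ∀ x y, x ≠ o → y ≠ o → ∃ m : ℕ, g^[m] x = y)
    (hng : ¬ ∃ (G : Type) (_ : Group G) (r c s : F ≃ G), ∀ i j : F, s (i + g (j - i)) = r i * c j) :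
    ∃ L : Fin n → Equiv.Perm (Fin n),
      (∀ j, Function.Injective (fun i => L i j)) ∧
      (∀ i, (∃! x, L i x = x) ∧ ∀ x y, L i x ≠ x → L i y ≠ y → ∃ m : ℕ, ((L i) ^ m) x = y) ∧
      (¬ ∃ (G : Type) (_ : Group G) (r c s : Fin n ≃ G), ∀ i j, s (L i j) = r i * c j) ∧
      ∀ j, Function.Injective (fun i => (L i * L i) j) := by
  classical
  let ε : F ≃ Fin n := Fintype.equivFinOfCardEq hcard
  let P : Equiv.Perm F := Equiv.ofBijective g (Finite.injective_iff_bijective.1 hg)
  have hP : ∀ x, P x = g x := fun x => rfl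
  let row : F → Equiv.Perm F := fun i => (Equiv.subRight i).trans (P.trans (Equiv.addLeft i))
  let L : Fin n → Equiv.Perm (Fin n) := fun i => (ε.symm.trans (row (ε.symm i))).trans ε
  have hL : ∀ i x, L i x = ε (ε.symm i + g (ε.symm x - ε.symm i)) := fun i x => rfl
  have hpow : ∀ (i : Fin n) (l : ℕ) (x : Fin n),
      ((L i) ^ l) x = ε (ε.symm i + g^[l] (ε.symm x - ε.symm i)) := by
    intro i l
    induction l with
    | zero => intro x; simp
    | succ m ih =>
      intro x
      rw [pow_succ, Equiv.Perm.mul_apply, ih, hL, Equiv.symm_apply_apply, add_sub_cancel_left,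
        Function.iterate_succ_apply]
  have fix : ∀ i x, L i x = x ↔ ε.symm x - ε.symm i = o := by
    intro i x
    rw [hL]
    constructor
    · intro hx
      have h1 : ε.symm i + g (ε.symm x - ε.symm i) = ε.symm x := by
        apply ε.injective; rw [hx, Equiv.apply_symm_apply]
      apply hd
      change g (ε.symm x - ε.symm i) + (ε.symm x - ε.symm i) = g o + o
      rw [ho]
      linear_combination h1 + (ε.symm x - ε.symm i - o) * h2
    · intro h
      rw [h, ho, ← h, add_sub_cancel, Equiv.apply_symm_apply]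
  refine ⟨L, ?_, ?_, ?_, ?_⟩
  · intro j i i' hij
    have h1 : L i j = L i' j := hij
    rw [hL, hL] at h1
    have h3 := ε.injective h1
    have h4 : g (ε.symm j - ε.symm i) + (ε.symm j - ε.symm i) =
        g (ε.symm j - ε.symm i') + (ε.symm j - ε.symm i') := by
      linear_combination h3 - (ε.symm i - ε.symm i') * h2
    have h5 := hd h4
    exact ε.symm.injective (sub_right_injective h5)
  · intro i
    refine ⟨⟨ε (o + ε.symm i), (fix i _).2 (by rw [Equiv.symm_apply_apply, add_sub_cancel_right]), ?_⟩, ?_⟩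
    · intro x hx
      have h1 := (fix i x).1 hx
      apply ε.symm.injective
      rw [Equiv.symm_apply_apply]
      linear_combination h1
    · intro x y hx hy
      have hx' : ε.symm x - ε.symm i ≠ o := fun h0 => hx ((fix i x).2 h0)
      have hy' : ε.symm y - ε.symm i ≠ o := fun h0 => hy ((fix i y).2 h0)
      obtain ⟨m, hm⟩ := horb _ _ hx' hy'
      refine ⟨m, ?_⟩
      rw [hpow, hm, add_sub_cancel, Equiv.apply_symm_apply]
  · rintro ⟨G, hG, r, c', s, H⟩
    refine hng ⟨G, hG, ε.trans r, ε.trans c', ε.trans s, fun i j => ?_⟩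
    have h1 := H (ε i) (ε j)
    rw [hL, Equiv.symm_apply_apply, Equiv.symm_apply_apply] at h1
    exact h1
  · intro j i i' hij
    have h1 : ((L i) ^ 2) j = ((L i') ^ 2) j := by
      rw [pow_two, pow_two]; exact hij
    rw [hpow, hpow] at h1
    have h3 := ε.injective h1
    have h4 : g (g (ε.symm j - ε.symm i)) + (ε.symm j - ε.symm i) =
        g (g (ε.symm j - ε.symm i')) + (ε.symm j - ε.symm i') := by
      have h6 : ∀ x, g^[2] x = g (g x) := fun x => rfl
      rw [h6, h6] at h3
      linear_combination h3 - (ε.symm i - ε.symm i') * h2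
    have h5 := hd2 h4
    exact ε.symm.injective (sub_right_injective h5)

end Pool.Agent.H30.PT
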