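import Pool.Agent.H30.PT.Cnt
import Pool.Agent.H30.PT.Trn

set_option autoImplicit false

namespace Pool.Agent.H30.PT

/-- a D-type square of order `2 ^ k` for every `k ≥ 6` -/
theorem main {k : ℕ} (hk : 6 ≤ k) :
    ∃ L : Fin (2 ^ k) → Equiv.Perm (Fin (2 ^ k)),
      (∀ j, Function.Injective (fun i => L i j)) ∧
      (∀ i, (∃! x, L i x = x) ∧ ∀ x y, L i x ≠ x → L i y ≠ y → ∃ m : ℕ, ((L i) ^ m) x = y) ∧
      (¬ ∃ (G : Type) (_ : Group G) (r c s : Fin (2 ^ k) ≃ G), ∀ i j, s (L i j) = r i * c j) ∧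
      ∀ j, Function.Injective (fun i => (L i * L i) j) := by
  classical
  haveI : Fact (Nat.Prime 2) := ⟨Nat.prime_two⟩
  have hk0 : k ≠ 0 := by omega
  let F := GaloisField 2 k
  letI : Fintype F := Fintype.ofFinite F
  have hcard : Fintype.card F = 2 ^ k := by
    rw [← Nat.card_eq_fintype_card]
    exact GaloisField.card 2 k hk0
  have h64 : 64 ≤ Fintype.card F := by
    rw [hcard]
    calc 64 = 2 ^ 6 := by norm_num
      _ ≤ 2 ^ k := Nat.pow_le_pow_right (by norm_num) hk
  have h2 : (2 : F) = 0 := by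
    have := CharP.cast_eq_zero F 2
    exact_mod_cast this
  obtain ⟨u, hu⟩ := IsCyclic.exists_generator (α := Fˣ)
  have hgen : ∀ x : F, x ≠ 0 → ∃ n : ℕ, (u : F) ^ n = x := by
    intro x hx
    have h1 := hu (Units.mk0 x hx)
    have h3 : Units.mk0 x hx ∈ Submonoid.powers u := by
      rw [(isOfFinOrder_of_finite u).mem_powers_iff_mem_zpowers]
      exact h1
    obtain ⟨n, hn⟩ := h3
    have hn' : u ^ n = Units.mk0 x hx := hn
    refine ⟨n, ?_⟩
    rw [← Units.val_pow_eq_pow_val, hn', Units.val_mk0]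
  set a : F := (u : F) with ha_def
  have ha : a ≠ 0 := u.ne_zero
  have ha1 : a + 1 ≠ 0 := by
    intro h
    have h1 : a = 1 := by linear_combination h - h2
    have h3 : ∀ x : F, x ∈ ({0, 1} : Finset F) := by
      intro x
      by_cases hx : x = 0
      · simp [hx]
      · obtain ⟨n, hn⟩ := hgen x hx
        rw [h1, one_pow] at hn
        simp [← hn]
    have h4 : Fintype.card F ≤ 2 := by
      rw [← Finset.card_univ]
      calc (Finset.univ : Finset F).card ≤ ({0, 1} : Finset F).card :=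
            Finset.card_le_card fun x _ => h3 x
        _ ≤ 2 := Finset.card_le_two
    omega
  have haa : a * a + 1 ≠ 0 := by
    have : a * a + 1 = (a + 1) * (a + 1) := by linear_combination (-a) * h2
    rw [this]
    exact mul_ne_zero ha1 ha1
  let W := Submodule.span (ZMod 2) ({a, a ^ 2, a ^ 3} : Set F)
  let V : AddSubgroup F := W.toAddSubgroup
  have hV : ∀ x, x ∈ V ↔ x ∈ W := fun x => Iff.rfl
  have m1 : a ∈ V := Submodule.subset_span (by simp)
  have m2 : a ^ 2 ∈ V := Submodule.subset_span (by simp)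
  have m3 : a ^ 3 ∈ V := Submodule.subset_span (by simp)
  set c : F := a ^ 3 + a with hc_def
  have hc : c ∈ V := V.add_mem m3 m1
  have hc0 : c ≠ 0 := by
    have : c = a * (a * a + 1) := by rw [hc_def]; ring
    rw [this]
    exact mul_ne_zero ha haa
  have v1 : (a + 1) * (a ^ 2 + a) = c := by rw [hc_def]; linear_combination a ^ 2 * h2
  have v2 : (a * a + 1) * a = c := by rw [hc_def]; ring
  have v1V : a ^ 2 + a ∈ V := V.add_mem m2 m1
  have v1V' : a * (a ^ 2 + a) ∈ V := by
    have : a * (a ^ 2 + a) = a ^ 3 + a ^ 2 := by ring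
    rw [this]
    exact V.add_mem m3 m2
  have v2V' : a * a * a ∈ V := by
    have : a * a * a = a ^ 3 := by ring
    rw [this]
    exact m3
  obtain ⟨S, hS, hSV⟩ := card_exc ha V hV
  obtain ⟨r, s, t, hrst⟩ := exists_rst h2 S (by omega)
  refine transport h2 hcard (f V c a) (f_inj h2 hc ha) (d1 h2 hc ha1 v1 v1V v1V')
    (d2 h2 hc haa v2 m1 v2V') c (f_fix h2 hc) (fun x y hx hy => orbit h2 hc hgen hx hy) ?_
  refine not_group h2 (f_zero_ne hc0 ha ha1) (r := r) (s := s) (t := t) (a := a) fun x hx => ?_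
  exact f_out (hSV x (hrst x hx)).1 (hSV x (hrst x hx)).2

end Pool.Agent.H30.PT
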